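import Mathlib

/-!
# First order calculus modulo `p` on the ball `‖c‖ ≤ 1/p` of `ℚ_p`, and fixed points
-/

set_option autoImplicit false

namespace Pool.Agent.K6.H14.PCF

open Filter Topology

variable {p : ℕ} [Fact p.Prime]

theorem pinv_pos : (0 : ℝ) < (p : ℝ)⁻¹ := by
  have : (0 : ℝ) < p := by exact_mod_cast (Fact.out : p.Prime).pos
  positivity

theorem pinv_lt_one : (p : ℝ)⁻¹ < 1 := by
  have : (1 : ℝ) < p := by exact_mod_cast (Fact.out : p.Prime).one_lt
  exact inv_lt_one_of_one_lt₀ this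

theorem pinv_le_one : (p : ℝ)⁻¹ ≤ 1 := pinv_lt_one.le

/-- the elements of norm `< 1` have norm `≤ 1/p` -/
theorem le_pinv_of_lt_one {x : ℚ_[p]} (h : ‖x‖ < 1) : ‖x‖ ≤ (p : ℝ)⁻¹ := by
  have h1 := (Padic.norm_le_pow_iff_norm_lt_pow_add_one x (-1)).2 (by simpa using h)
  simpa using h1

theorem add_le {x y : ℚ_[p]} {r : ℝ} (hx : ‖x‖ ≤ r) (hy : ‖y‖ ≤ r) : ‖x + y‖ ≤ r :=
  (IsUltrametricDist.norm_add_le_max x y).trans (max_le hx hy)

theorem sub_le' {x y : ℚ_[p]} {r : ℝ} (hx : ‖x‖ ≤ r) (hy : ‖y‖ ≤ r) : ‖x - y‖ ≤ r := by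
  rw [sub_eq_add_neg]
  exact add_le hx (by rwa [norm_neg])

theorem mul_le_left {x y : ℚ_[p]} {r : ℝ} (hx : ‖x‖ ≤ r) (hy : ‖y‖ ≤ 1) : ‖x * y‖ ≤ r := by
  rw [norm_mul]
  calc ‖x‖ * ‖y‖ ≤ ‖x‖ * 1 := mul_le_mul_of_nonneg_left hy (norm_nonneg _)
    _ ≤ r := by rwa [mul_one]

theorem mul_le_right {x y : ℚ_[p]} {r : ℝ} (hx : ‖x‖ ≤ 1) (hy : ‖y‖ ≤ r) : ‖x * y‖ ≤ r := by
  rw [mul_comm]
  exact mul_le_left hy hx

theorem norm_eq_one_of_near {x y : ℚ_[p]} (hy : ‖y‖ = 1) (h : ‖x - y‖ ≤ (p : ℝ)⁻¹) : ‖x‖ = 1 := by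
  have h1 : ‖x - y‖ < ‖y‖ := by
    rw [hy]
    exact lt_of_le_of_lt h pinv_lt_one
  have h2 : x = (x - y) + y := by ring
  rw [h2, IsUltrametricDist.norm_add_eq_max_of_norm_ne_norm h1.ne, max_eq_right h1.le, hy]

/-- `F` has the constant value `f` and the constant derivative `a` modulo `p`. -/
structure Der (F : ℚ_[p] → ℚ_[p]) (f a : ℚ_[p]) : Prop where
  nf : ‖f‖ ≤ 1
  na : ‖a‖ ≤ 1
  val : ∀ c : ℚ_[p], ‖c‖ ≤ (p : ℝ)⁻¹ → ‖F c - f‖ ≤ (p : ℝ)⁻¹
  der : ∀ c c' : ℚ_[p], ‖c‖ ≤ (p : ℝ)⁻¹ → ‖c'‖ ≤ (p : ℝ)⁻¹ →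
    ‖F c - F c' - a * (c - c')‖ ≤ (p : ℝ)⁻¹ * ‖c - c'‖

namespace Der

variable {F G : ℚ_[p] → ℚ_[p]} {f g a b : ℚ_[p]}

theorem nF (h : Der F f a) {c : ℚ_[p]} (hc : ‖c‖ ≤ (p : ℝ)⁻¹) : ‖F c‖ ≤ 1 := by
  have h1 : F c = (F c - f) + f := by ring
  rw [h1]
  exact add_le ((h.val c hc).trans pinv_le_one) h.nf

theorem nF_eq (h : Der F f a) (hf : ‖f‖ = 1) {c : ℚ_[p]} (hc : ‖c‖ ≤ (p : ℝ)⁻¹) : ‖F c‖ = 1 :=
  norm_eq_one_of_near hf (h.val c hc)

theorem congr' (h : Der F f a) {f' a' : ℚ_[p]} (hf : ‖f - f'‖ ≤ (p : ℝ)⁻¹)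
    (ha : ‖a - a'‖ ≤ (p : ℝ)⁻¹) : Der F f' a' where
  nf := by
    have : f' = f - (f - f') := by ring
    rw [this]
    exact sub_le' h.nf (hf.trans pinv_le_one)
  na := by
    have : a' = a - (a - a') := by ring
    rw [this]
    exact sub_le' h.na (ha.trans pinv_le_one)
  val := fun c hc => by
    have : F c - f' = (F c - f) + (f - f') := by ring
    rw [this]
    exact add_le (h.val c hc) hf
  der := fun c c' hc hc' => by
    have : F c - F c' - a' * (c - c') = (F c - F c' - a * (c - c')) + (a - a') * (c - c') := by ring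
    rw [this]
    refine add_le (h.der c c' hc hc') ?_
    rw [norm_mul]
    exact mul_le_mul_of_nonneg_right ha (norm_nonneg _)

theorem congr (h : Der F f a) {f' a' : ℚ_[p]} (hf : f = f') (ha : a = a') : Der F f' a' := by
  subst hf
  subst ha
  exact h

theorem ext_fun (h : Der F f a) (hG : ∀ c : ℚ_[p], ‖c‖ ≤ (p : ℝ)⁻¹ → G c = F c) : Der G f a where
  nf := h.nf
  na := h.na
  val := fun c hc => by rw [hG c hc]; exact h.val c hc
  der := fun c c' hc hc' => by rw [hG c hc, hG c' hc']; exact h.der c c' hc hc'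

theorem const {f : ℚ_[p]} (hf : ‖f‖ ≤ 1) : Der (fun _ => f) f 0 where
  nf := hf
  na := by simp
  val := fun c _ => by simp [pinv_pos.le]
  der := fun c c' _ _ => by
    simp only [sub_self, zero_mul, norm_zero]
    exact mul_nonneg pinv_pos.le (norm_nonneg _)

theorem ident : Der (p := p) (fun c => c) 0 1 where
  nf := by simp
  na := by simp
  val := fun c hc => by simpa using hc
  der := fun c c' _ _ => by
    simp only [one_mul, sub_self, norm_zero]
    exact mul_nonneg pinv_pos.le (norm_nonneg _)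

theorem add (hF : Der F f a) (hG : Der G g b) : Der (fun c => F c + G c) (f + g) (a + b) where
  nf := add_le hF.nf hG.nf
  na := add_le hF.na hG.na
  val := fun c hc => by
    have : F c + G c - (f + g) = (F c - f) + (G c - g) := by ring
    rw [this]
    exact add_le (hF.val c hc) (hG.val c hc)
  der := fun c c' hc hc' => by
    have : F c + G c - (F c' + G c') - (a + b) * (c - c') =
      (F c - F c' - a * (c - c')) + (G c - G c' - b * (c - c')) := by ring
    rw [this]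
    exact add_le (hF.der c c' hc hc') (hG.der c c' hc hc')

theorem mul (hF : Der F f a) (hG : Der G g b) :
    Der (fun c => F c * G c) (f * g) (f * b + a * g) where
  nf := mul_le_left hF.nf hG.nf
  na := add_le (mul_le_left hF.nf hG.na) (mul_le_left hF.na hG.nf)
  val := fun c hc => by
    have : F c * G c - f * g = (F c - f) * G c + f * (G c - g) := by ring
    rw [this]
    exact add_le (mul_le_left (hF.val c hc) (hG.nF hc)) (mul_le_right hF.nf (hG.val c hc))
  der := fun c c' hc hc' => by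
    have : F c * G c - F c' * G c' - (f * b + a * g) * (c - c') =
      (F c - F c' - a * (c - c')) * G c + (a * (G c - g)) * (c - c') +
        (F c' * (G c - G c' - b * (c - c')) + ((F c' - f) * b) * (c - c')) := by ring
    rw [this]
    refine add_le (add_le (mul_le_left (hF.der c c' hc hc') (hG.nF hc)) ?_)
      (add_le (mul_le_right (hF.nF hc') (hG.der c c' hc hc')) ?_)
    · rw [norm_mul]
      exact mul_le_mul_of_nonneg_right (mul_le_right hF.na (hG.val c hc)) (norm_nonneg _)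
    · rw [norm_mul]
      exact mul_le_mul_of_nonneg_right (mul_le_left (hF.val c' hc') hG.na) (norm_nonneg _)

theorem neg (hF : Der F f a) : Der (fun c => - F c) (-f) (-a) := by
  have h := (const (p := p) (f := (-1 : ℚ_[p])) (by simp)).mul hF
  exact (h.congr (by ring) (by ring)).ext_fun (fun c _ => by ring)

theorem sub (hF : Der F f a) (hG : Der G g b) : Der (fun c => F c - G c) (f - g) (a - b) := by
  have h := hF.add hG.neg
  exact (h.congr (by ring) (by ring)).ext_fun (fun c _ => by ring)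

theorem inv (hF : Der F f a) (hf : ‖f‖ = 1) : Der (fun c => (F c)⁻¹) f⁻¹ (-(a * (f⁻¹ * f⁻¹))) where
  nf := by rw [norm_inv, hf, inv_one]
  na := by
    rw [norm_neg]
    refine mul_le_left hF.na ?_
    rw [norm_mul, norm_inv, hf]
    norm_num
  val := fun c hc => by
    have hne : f ≠ 0 := norm_ne_zero_iff.1 (by rw [hf]; exact one_ne_zero)
    have h1 := hF.nF_eq hf hc
    have hne' : F c ≠ 0 := norm_ne_zero_iff.1 (by rw [h1]; exact one_ne_zero)
    have : (F c)⁻¹ - f⁻¹ = -((F c - f) * ((F c)⁻¹ * f⁻¹)) := by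
      field_simp
      ring
    rw [this, norm_neg]
    refine mul_le_left (hF.val c hc) ?_
    rw [norm_mul, norm_inv, norm_inv, h1, hf]
    norm_num
  der := fun c c' hc hc' => by
    have hne : f ≠ 0 := norm_ne_zero_iff.1 (by rw [hf]; exact one_ne_zero)
    have h1 := hF.nF_eq hf hc
    have h1' := hF.nF_eq hf hc'
    have hne1 : F c ≠ 0 := norm_ne_zero_iff.1 (by rw [h1]; exact one_ne_zero)
    have hne1' : F c' ≠ 0 := norm_ne_zero_iff.1 (by rw [h1']; exact one_ne_zero)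
    have e : (F c)⁻¹ - (F c')⁻¹ - -(a * (f⁻¹ * f⁻¹)) * (c - c') =
        -((F c - F c' - a * (c - c')) * ((F c)⁻¹ * (F c')⁻¹)) +
        (a * ((F c - f) * ((F c)⁻¹ * (F c')⁻¹ * f⁻¹) + (F c' - f) * ((F c')⁻¹ * f⁻¹ * f⁻¹))) *
          (c - c') := by
      field_simp
      ring
    rw [e]
    have n1 : ‖(F c)⁻¹‖ ≤ 1 := by rw [norm_inv, h1, inv_one]
    have n2 : ‖(F c')⁻¹‖ ≤ 1 := by rw [norm_inv, h1', inv_one]
    have n3 : ‖f⁻¹‖ ≤ 1 := by rw [norm_inv, hf, inv_one]
    refine add_le ?_ ?_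
    · rw [norm_neg]
      exact mul_le_left (hF.der c c' hc hc') (mul_le_left n1 n2)
    · rw [norm_mul]
      refine mul_le_mul_of_nonneg_right ?_ (norm_nonneg _)
      refine mul_le_right hF.na (add_le ?_ ?_)
      · exact mul_le_left (hF.val c hc) (mul_le_left (mul_le_left n1 n2) n3)
      · exact mul_le_left (hF.val c' hc') (mul_le_left (mul_le_left n2 n3) n3)

theorem pow (hF : Der F f a) (n : ℕ) :
    Der (fun c => F c ^ (n + 1)) (f ^ (n + 1)) ((n + 1) * f ^ n * a) := by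
  induction n with
  | zero => exact (hF.congr (by simp) (by simp)).ext_fun (fun c _ => by simp)
  | succ n ih =>
    refine ((ih.mul hF).congr (by ring) ?_).ext_fun (fun c _ => by ring)
    push_cast
    ring

/-- products of functions with the same value -/
theorem prod {K : ℕ → ℚ_[p] → ℚ_[p]} {A : ℚ_[p]} {k : ℕ → ℚ_[p]} (n : ℕ)
    (h : ∀ i ≤ n, Der (K i) A (k i)) :
    Der (fun c => ∏ i ∈ Finset.range (n + 1), K i c) (A ^ (n + 1))
      (A ^ n * ∑ i ∈ Finset.range (n + 1), k i) := by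
  induction n with
  | zero => exact ((h 0 le_rfl).congr (by simp) (by simp)).ext_fun (fun c _ => by simp)
  | succ n ih =>
    have h1 := (ih (fun i hi => h i (by omega))).mul (h (n + 1) le_rfl)
    refine (h1.congr (by ring) ?_).ext_fun (fun c _ => by rw [Finset.prod_range_succ])
    rw [Finset.sum_range_succ k (n + 1)]
    ring

end Der

/-- fixed points of contractions of a closed ball -/
theorem exists_fixed {E : Type} [NormedAddCommGroup E] [CompleteSpace E] (r : ℝ) (hr : 0 ≤ r)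
    (T : E → E) (hm : ∀ x, ‖x‖ ≤ r → ‖T x‖ ≤ r)
    (hT : ∀ x y, ‖x‖ ≤ r → ‖y‖ ≤ r → ‖T x - T y‖ ≤ (p : ℝ)⁻¹ * ‖x - y‖) :
    ∃ x, ‖x‖ ≤ r ∧ T x = x := by
  set s : Set E := Metric.closedBall 0 r with hs
  have hmem : ∀ x, x ∈ s ↔ ‖x‖ ≤ r := fun x => by rw [hs, mem_closedBall_zero_iff]
  have hsc : IsComplete s := (Metric.isClosed_closedBall).isComplete
  have hmt : Set.MapsTo T s s := fun x hx => (hmem _).2 (hm x ((hmem x).1 hx))
  have hlt : ((p : NNReal)⁻¹ : NNReal) < 1 := by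
    rw [← NNReal.coe_lt_coe, NNReal.coe_inv, NNReal.coe_natCast, NNReal.coe_one]
    exact pinv_lt_one
  have hc : ContractingWith ((p : NNReal)⁻¹ : NNReal) (hmt.restrict T s s) := by
    refine ⟨hlt, LipschitzWith.of_dist_le_mul ?_⟩
    intro x y
    rw [Subtype.dist_eq, Subtype.dist_eq, dist_eq_norm, dist_eq_norm, NNReal.coe_inv,
      NNReal.coe_natCast]
    exact hT x y ((hmem _).1 x.2) ((hmem _).1 y.2)
  have h0 : (0 : E) ∈ s := (hmem 0).2 (by simpa using hr)
  obtain ⟨y, hy, hf, _⟩ := hc.exists_fixedPoint' hsc hmt h0 (edist_ne_top _ _)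
  exact ⟨y, (hmem y).1 hy, hf⟩

end Pool.Agent.K6.H14.PCF
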