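import Pool.Agent.K6.H14.PCF.Prod

/-!
# The chain of points near the pole `1`, and the solution of all equations
-/

set_option autoImplicit false

namespace Pool.Agent.K6.H14.PCF

open Filter Topology

noncomputable section

variable {p : ℕ} [Fact p.Prime]

theorem lip_mul {a a' b b' : ℚ_[p]} {r : ℝ} (ha : ‖a - a'‖ ≤ r) (hb : ‖b - b'‖ ≤ r)
    (h1 : ‖b‖ ≤ 1) (h2 : ‖a'‖ ≤ 1) : ‖a * b - a' * b'‖ ≤ r := by
  have : a * b - a' * b' = (a - a') * b + a' * (b - b') := by ring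
  rw [this]
  exact add_le (mul_le_left ha h1) (mul_le_right h2 hb)

theorem lip_inv {a a' : ℚ_[p]} {r : ℝ} (ha : ‖a - a'‖ ≤ r) (h1 : ‖a‖ = 1) (h2 : ‖a'‖ = 1) :
    ‖a⁻¹ - a'⁻¹‖ ≤ r := by
  have n1 := ne_zero_of_norm_one h1
  have n2 := ne_zero_of_norm_one h2
  have : a⁻¹ - a'⁻¹ = -((a - a') * (a⁻¹ * a'⁻¹)) := by
    field_simp
    ring
  rw [this, norm_neg]
  refine mul_le_left ha ?_
  rw [norm_mul, norm_inv, norm_inv, h1, h2]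
  norm_num

theorem lip_pow {a a' : ℚ_[p]} {r : ℝ} (ha : ‖a - a'‖ ≤ r) (h1 : ‖a‖ ≤ 1) (h2 : ‖a'‖ ≤ 1)
    (n : ℕ) : ‖a ^ (n + 1) - a' ^ (n + 1)‖ ≤ r := by
  induction n with
  | zero => simpa using ha
  | succ n ih =>
    rw [pow_succ, pow_succ a' (n + 1)]
    exact lip_mul ih ha h1 (by rw [norm_pow]; exact pow_le_one₀ (norm_nonneg _) h2)

theorem mul_le_mul' {x y : ℚ_[p]} {r s : ℝ} (hx : ‖x‖ ≤ r) (hy : ‖y‖ ≤ s) : ‖x * y‖ ≤ r * s := by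
  rw [norm_mul]
  exact mul_le_mul hx hy (norm_nonneg _) ((norm_nonneg _).trans hx)

/-- the power `a^(n+2)` contracts near `0` -/
theorem lip_pow_small {a a' : ℚ_[p]} {r : ℝ} (ha : ‖a - a'‖ ≤ r) (h1 : ‖a‖ ≤ (p : ℝ)⁻¹)
    (h2 : ‖a'‖ ≤ (p : ℝ)⁻¹) (n : ℕ) : ‖a ^ (n + 2) - a' ^ (n + 2)‖ ≤ (p : ℝ)⁻¹ * r := by
  have e : a ^ (n + 2) - a' ^ (n + 2) = (a ^ (n + 1) - a' ^ (n + 1)) * a + a' ^ (n + 1) * (a - a') := by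
    ring
  rw [e]
  have h3 := lip_pow ha (h1.trans pinv_le_one) (h2.trans pinv_le_one) n
  refine add_le ?_ ?_
  · rw [mul_comm ((p : ℝ)⁻¹)]
    exact mul_le_mul' h3 h1
  · refine mul_le_mul' ?_ ha
    rw [norm_pow, pow_succ]
    calc ‖a'‖ ^ n * ‖a'‖ ≤ 1 * (p : ℝ)⁻¹ :=
          mul_le_mul (pow_le_one₀ (norm_nonneg _) (h2.trans pinv_le_one)) h2 (norm_nonneg _) zero_le_one
      _ = _ := one_mul _

/-- the right side of the equation of the chain -/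
def tau (n : ℕ) (m y e z : ℚ_[p]) : ℚ_[p] := m * (1 + y) * (y + e) ^ (n + 2) * (1 + z)⁻¹

theorem norm_one_add {z : ℚ_[p]} (hz : ‖z‖ ≤ (p : ℝ)⁻¹) : ‖1 + z‖ = 1 :=
  norm_eq_one_of_near (y := (1 : ℚ_[p])) (by simp) (by simpa using hz)

theorem tau_lip (n : ℕ) {m y e z m' y' e' z' : ℚ_[p]} {r : ℝ} (hm : ‖m‖ ≤ 1)
    (hm' : ‖m'‖ ≤ 1) (hy : ‖y‖ ≤ (p : ℝ)⁻¹) (hy' : ‖y'‖ ≤ (p : ℝ)⁻¹) (he : ‖e‖ ≤ (p : ℝ)⁻¹)
    (he' : ‖e'‖ ≤ (p : ℝ)⁻¹) (hz : ‖z‖ ≤ (p : ℝ)⁻¹) (hz' : ‖z'‖ ≤ (p : ℝ)⁻¹)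
    (dm : ‖m - m'‖ ≤ r) (dy : ‖y - y'‖ ≤ r) (de : ‖e - e'‖ ≤ r) (dz : ‖z - z'‖ ≤ r) :
    ‖tau n m y e z - tau n m' y' e' z'‖ ≤ (p : ℝ)⁻¹ * r := by
  set U := m * (1 + y) * (1 + z)⁻¹ with hU
  set U' := m' * (1 + y') * (1 + z')⁻¹ with hU'
  set V := (y + e) ^ (n + 2) with hV
  set V' := (y' + e') ^ (n + 2) with hV'
  have e1 : tau n m y e z - tau n m' y' e' z' = (U - U') * V + U' * (V - V') := by
    unfold tau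
    rw [hU, hU', hV, hV']
    ring
  have n1 := norm_one_add hy
  have n1' := norm_one_add hy'
  have n2 : ‖(1 + z)⁻¹‖ = 1 := by rw [norm_inv, norm_one_add hz, inv_one]
  have n2' : ‖(1 + z')⁻¹‖ = 1 := by rw [norm_inv, norm_one_add hz', inv_one]
  have dUU : ‖U - U'‖ ≤ r := by
    refine lip_mul (lip_mul dm ?_ n1.le hm') (lip_inv ?_ (norm_one_add hz) (norm_one_add hz'))
      n2.le (mul_le_left hm' n1'.le)
    · have : 1 + y - (1 + y') = y - y' := by ring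
      rwa [this]
    · have : 1 + z - (1 + z') = z - z' := by ring
      rwa [this]
  have hU1 : ‖U'‖ ≤ 1 := mul_le_left (mul_le_left hm' n1'.le) n2'.le
  have hye : ‖y + e‖ ≤ (p : ℝ)⁻¹ := add_le hy he
  have hye' : ‖y' + e'‖ ≤ (p : ℝ)⁻¹ := add_le hy' he'
  have hV1 : ‖V‖ ≤ (p : ℝ)⁻¹ := by
    rw [hV, pow_succ]
    exact mul_le_right (by rw [norm_pow]; exact pow_le_one₀ (norm_nonneg _) (hye.trans pinv_le_one)) hye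
  have dV : ‖V - V'‖ ≤ (p : ℝ)⁻¹ * r := by
    refine lip_pow_small ?_ hye hye' n
    have : y + e - (y' + e') = (y - y') + (e - e') := by ring
    rw [this]
    exact add_le dy de
  rw [e1]
  refine add_le ?_ ?_
  · rw [mul_comm ((p : ℝ)⁻¹)]
    exact mul_le_mul' dUU hV1
  · exact mul_le_right hU1 dV

theorem tau_le (n : ℕ) {m y e z : ℚ_[p]} (hm : ‖m‖ ≤ 1) (hy : ‖y‖ ≤ (p : ℝ)⁻¹)
    (he : ‖e‖ ≤ (p : ℝ)⁻¹) (hz : ‖z‖ ≤ (p : ℝ)⁻¹) : ‖tau n m y e z‖ ≤ (p : ℝ)⁻¹ := by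
  have n1 := norm_one_add hy
  have n2 : ‖(1 + z)⁻¹‖ = 1 := by rw [norm_inv, norm_one_add hz, inv_one]
  have hye : ‖y + e‖ ≤ (p : ℝ)⁻¹ := add_le hy he
  unfold tau
  refine mul_le_left (mul_le_right (mul_le_left hm n1.le) ?_) n2.le
  rw [pow_succ]
  exact mul_le_right (by rw [norm_pow]; exact pow_le_one₀ (norm_nonneg _) (hye.trans pinv_le_one)) hye

/-- the next entry of a chain, `0` at the end -/
def nxt {J : ℕ} (y : Fin (J + 1) → ℚ_[p]) (i : Fin (J + 1)) : ℚ_[p] :=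
  if h : (i : ℕ) + 1 < J + 1 then y ⟨i + 1, h⟩ else 0

/-- the map whose fixed points are the chains -/
def TT (m : ℕ) (J : ℕ) (c : ℚ_[p]) (y : Fin (J + 1) → ℚ_[p]) : Fin (J + 1) → ℚ_[p] := fun i =>
  tau m ((1 + y 0) * (HH (m + 1) c)⁻¹) (y i) (eps (m + 1) c) (nxt y i)

variable {m J : ℕ} {s t H0 : ℚ_[p]}

theorem nxt_le {y : Fin (J + 1) → ℚ_[p]} (hy : ‖y‖ ≤ (p : ℝ)⁻¹) (i : Fin (J + 1)) :
    ‖nxt y i‖ ≤ (p : ℝ)⁻¹ := by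
  unfold nxt
  split_ifs with h
  · exact (norm_le_pi_norm y _).trans hy
  · simp [pinv_pos.le]

theorem nxt_sub_le (y y' : Fin (J + 1) → ℚ_[p]) (i : Fin (J + 1)) :
    ‖nxt y i - nxt y' i‖ ≤ ‖y - y'‖ := by
  unfold nxt
  split_ifs with h
  · exact norm_le_pi_norm (y - y') _
  · simp

theorem HH_inv_norm (h : Cst p m s t H0) {c : ℚ_[p]} (hc : ‖c‖ ≤ (p : ℝ)⁻¹) :
    ‖(HH (m + 1) c)⁻¹‖ = 1 := by
  rw [norm_inv, h.der_HH.nF_eq h.nH hc, inv_one]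

theorem der_lip {F : ℚ_[p] → ℚ_[p]} {f a : ℚ_[p]} (h : Der F f a) {c c' : ℚ_[p]}
    (hc : ‖c‖ ≤ (p : ℝ)⁻¹) (hc' : ‖c'‖ ≤ (p : ℝ)⁻¹) : ‖F c - F c'‖ ≤ ‖c - c'‖ := by
  have : F c - F c' = (F c - F c' - a * (c - c')) + a * (c - c') := by ring
  rw [this]
  refine add_le ((h.der c c' hc hc').trans ?_) ?_
  · calc (p : ℝ)⁻¹ * ‖c - c'‖ ≤ 1 * ‖c - c'‖ :=
          mul_le_mul_of_nonneg_right pinv_le_one (norm_nonneg _)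
      _ = _ := one_mul _
  · exact mul_le_right h.na le_rfl

theorem TT_le (h : Cst p m s t H0) {c : ℚ_[p]} (hc : ‖c‖ ≤ (p : ℝ)⁻¹) {y : Fin (J + 1) → ℚ_[p]}
    (hy : ‖y‖ ≤ (p : ℝ)⁻¹) : ‖TT m J c y‖ ≤ (p : ℝ)⁻¹ := by
  rw [pi_norm_le_iff_of_nonneg pinv_pos.le]
  intro i
  have h0 : ‖y 0‖ ≤ (p : ℝ)⁻¹ := (norm_le_pi_norm y 0).trans hy
  exact tau_le m (mul_le_left (norm_one_add h0).le (HH_inv_norm h hc).le)
    ((norm_le_pi_norm y i).trans hy) (eps_le hc) (nxt_le hy i)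

theorem TT_lip (h : Cst p m s t H0) {c c' : ℚ_[p]} (hc : ‖c‖ ≤ (p : ℝ)⁻¹) (hc' : ‖c'‖ ≤ (p : ℝ)⁻¹)
    {y y' : Fin (J + 1) → ℚ_[p]} (hy : ‖y‖ ≤ (p : ℝ)⁻¹) (hy' : ‖y'‖ ≤ (p : ℝ)⁻¹) {r : ℝ}
    (hr : 0 ≤ r) (h1 : ‖c - c'‖ ≤ r) (h2 : ‖y - y'‖ ≤ r) :
    ‖TT m J c y - TT m J c' y'‖ ≤ (p : ℝ)⁻¹ * r := by
  rw [pi_norm_le_iff_of_nonneg (mul_nonneg pinv_pos.le hr)]
  intro i
  have h0 : ‖y 0‖ ≤ (p : ℝ)⁻¹ := (norm_le_pi_norm y 0).trans hy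
  have h0' : ‖y' 0‖ ≤ (p : ℝ)⁻¹ := (norm_le_pi_norm y' 0).trans hy'
  have d : ∀ i, ‖y i - y' i‖ ≤ r := fun i => (norm_le_pi_norm (y - y') i).trans h2
  refine tau_lip m (mul_le_left (norm_one_add h0).le (HH_inv_norm h hc).le)
    (mul_le_left (norm_one_add h0').le (HH_inv_norm h hc').le)
    ((norm_le_pi_norm y i).trans hy) ((norm_le_pi_norm y' i).trans hy') (eps_le hc) (eps_le hc')
    (nxt_le hy i) (nxt_le hy' i) ?_ (d i) ?_ ((nxt_sub_le y y' i).trans h2)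
  · refine lip_mul ?_ ?_ (HH_inv_norm h hc).le (norm_one_add h0').le
    · have : 1 + y 0 - (1 + y' 0) = y 0 - y' 0 := by ring
      rw [this]
      exact d 0
    · exact (lip_inv (der_lip h.der_HH hc hc') (h.der_HH.nF_eq h.nH hc)
        (h.der_HH.nF_eq h.nH hc')).trans h1
  · exact (der_lip (der_eps (m + 1)) hc hc').trans h1

theorem exists_chain (h : Cst p m s t H0) (J : ℕ) : ∃ Y : ℚ_[p] → Fin (J + 1) → ℚ_[p],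
    (∀ c, ‖c‖ ≤ (p : ℝ)⁻¹ → ‖Y c‖ ≤ (p : ℝ)⁻¹ ∧ TT m J c (Y c) = Y c) ∧
    ∀ c c', ‖c‖ ≤ (p : ℝ)⁻¹ → ‖c'‖ ≤ (p : ℝ)⁻¹ → ‖Y c - Y c'‖ ≤ (p : ℝ)⁻¹ * ‖c - c'‖ := by
  have h1 : ∀ c : ℚ_[p], ∃ y : Fin (J + 1) → ℚ_[p], ‖c‖ ≤ (p : ℝ)⁻¹ →
      ‖y‖ ≤ (p : ℝ)⁻¹ ∧ TT m J c y = y := by
    intro c
    by_cases hc : ‖c‖ ≤ (p : ℝ)⁻¹
    · obtain ⟨y, hy1, hy2⟩ := exists_fixed (p := p) (p : ℝ)⁻¹ pinv_pos.le (TT m J c)
        (fun y hy => TT_le h hc hy)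
        (fun y y' hy hy' => TT_lip h hc hc hy hy' (norm_nonneg _) (by simp) le_rfl)
      exact ⟨y, fun _ => ⟨hy1, hy2⟩⟩
    · exact ⟨0, fun hc' => absurd hc' hc⟩
  choose Y hY using h1
  refine ⟨Y, hY, fun c c' hc hc' => ?_⟩
  obtain ⟨n1, f1⟩ := hY c hc
  obtain ⟨n2, f2⟩ := hY c' hc'
  have h3 := TT_lip (J := J) h hc hc' n1 n2 (r := max ‖c - c'‖ ‖Y c - Y c'‖)
    (le_max_of_le_left (norm_nonneg _)) (le_max_left _ _) (le_max_right _ _)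
  rw [f1, f2] at h3
  rcases le_total ‖Y c - Y c'‖ ‖c - c'‖ with h4 | h4
  · rwa [max_eq_left h4] at h3
  · rw [max_eq_right h4] at h3
    have h5 : ‖Y c - Y c'‖ ≤ 0 := by
      have := pinv_lt_one (p := p)
      nlinarith [norm_nonneg (Y c - Y c')]
    refine h5.trans (mul_nonneg pinv_pos.le (norm_nonneg _))

end

end Pool.Agent.K6.H14.PCF
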