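import Pool.Agent.K6.H14.PCF.Calc

/-!
# The equations for the family `f(w) = μ w (w - 1 + ε)^(n+1) / (w - 1)`: solution over `ℚ_p`
-/

set_option autoImplicit false

namespace Pool.Agent.K6.H14.PCF

open Filter Topology

noncomputable section

variable {p : ℕ} [Fact p.Prime]

/-- little Fermat in `ℚ_p` -/
theorem fermat {x : ℚ_[p]} (hx : ‖x‖ = 1) : ‖x ^ (p - 1) - 1‖ ≤ (p : ℝ)⁻¹ := by
  apply le_pinv_of_lt_one
  set u : ℤ_[p] := ⟨x, hx.le⟩ with hu
  have h1 : PadicInt.toZMod u ≠ 0 := by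
    intro h
    have h2 : u ∈ RingHom.ker (PadicInt.toZMod : ℤ_[p] →+* ZMod p) := h
    rw [PadicInt.ker_toZMod, IsLocalRing.mem_maximalIdeal, PadicInt.mem_nonunits] at h2
    have h3 : ‖u‖ = 1 := hx
    linarith
  have h2 : u ^ (p - 1) - 1 ∈ RingHom.ker (PadicInt.toZMod : ℤ_[p] →+* ZMod p) := by
    rw [RingHom.mem_ker, map_sub, map_pow, map_one, ZMod.pow_card_sub_one_eq_one h1, sub_self]
  rw [PadicInt.ker_toZMod, IsLocalRing.mem_maximalIdeal, PadicInt.mem_nonunits] at h2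
  have h3 : ‖((u ^ (p - 1) - 1 : ℤ_[p]) : ℚ_[p])‖ < 1 := h2
  push_cast at h3
  exact h3

theorem nat_le_one (n : ℕ) : ‖(n : ℚ_[p])‖ ≤ 1 := by
  have := Padic.norm_int_le_one (p := p) n
  simpa using this

theorem norm_nat_one {n : ℕ} (h0 : 0 < n) (h : n < p) : ‖(n : ℚ_[p])‖ = 1 := by
  rw [Padic.norm_natCast_eq_one_iff]
  exact (Nat.Prime.coprime_iff_not_dvd Fact.out).2 (fun hd => by
    have := Nat.le_of_dvd h0 hd
    omega)

theorem ne_zero_of_norm_one {x : ℚ_[p]} (h : ‖x‖ = 1) : x ≠ 0 :=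
  norm_ne_zero_iff.1 (by rw [h]; exact one_ne_zero)

/-- the distance of the pole `1` to the zero `1 - ε` -/
def eps (n : ℕ) (c : ℚ_[p]) : ℚ_[p] := c * ((n + 1) * c + n)

/-- the second critical point minus one -/
def xx (n : ℕ) (c : ℚ_[p]) : ℚ_[p] := -(n / (n + 1)) - c

/-- the critical value at `1 + xx`, divided by `μ` -/
def HH (n : ℕ) (c : ℚ_[p]) : ℚ_[p] := (n + 1) ^ (n + 1) * xx n c ^ n * (1 + xx n c) ^ (n + 2)

theorem eps_le {n : ℕ} {c : ℚ_[p]} (hc : ‖c‖ ≤ (p : ℝ)⁻¹) : ‖eps n c‖ ≤ (p : ℝ)⁻¹ := by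
  unfold eps
  refine mul_le_left hc (add_le (mul_le_left ?_ (hc.trans pinv_le_one)) ?_)
  · have := nat_le_one (p := p) (n + 1)
    push_cast at this
    exact this
  · exact nat_le_one n

theorem der_eps (n : ℕ) : Der (p := p) (eps n) 0 n := by
  have hn : ‖(n : ℚ_[p])‖ ≤ 1 := nat_le_one n
  have hn1 : ‖((n : ℚ_[p]) + 1)‖ ≤ 1 := by
    have := nat_le_one (p := p) (n + 1)
    push_cast at this
    exact this
  have h := (Der.ident (p := p)).mul (((Der.const hn1).mul Der.ident).add (Der.const hn))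
  refine (h.congr (by ring) (by ring)).ext_fun (fun c _ => rfl)

/-- the data at `c = 0` -/
structure Cst (p : ℕ) [Fact p.Prime] (m : ℕ) (s t H0 : ℚ_[p]) : Prop where
  hp : m + 3 < p
  hs : (m + 2) * s = -(m + 1)
  ht : (m + 2) * t = 1
  hH : H0 = (m + 2) ^ (m + 2) * s ^ (m + 1) * t ^ (m + 3)

theorem exists_cst {m : ℕ} (hp : m + 3 < p) : ∃ s t H0 : ℚ_[p], Cst p m s t H0 := by
  have h2 : ‖(m + 2 : ℚ_[p])‖ = 1 := by
    have := norm_nat_one (p := p) (n := m + 2) (by omega) (by omega)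
    push_cast at this
    exact this
  have h2' := ne_zero_of_norm_one h2
  refine ⟨-((m + 1) / (m + 2)), 1 / (m + 2), _, hp, ?_, ?_, rfl⟩
  · field_simp
  · field_simp

namespace Cst

variable {m : ℕ} {s t H0 : ℚ_[p]}

theorem n2 (h : Cst p m s t H0) : ‖(m + 2 : ℚ_[p])‖ = 1 := by
  have := norm_nat_one (p := p) (n := m + 2) (by omega) (by have := h.hp; omega)
  push_cast at this
  exact this

theorem n1 (h : Cst p m s t H0) : ‖(m + 1 : ℚ_[p])‖ = 1 := by
  have := norm_nat_one (p := p) (n := m + 1) (by omega) (by have := h.hp; omega)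
  push_cast at this
  exact this

theorem ns (h : Cst p m s t H0) : ‖s‖ = 1 := by
  have h1 := congrArg norm h.hs
  rwa [norm_mul, norm_neg, h.n2, h.n1, one_mul] at h1

theorem nt (h : Cst p m s t H0) : ‖t‖ = 1 := by
  have h1 := congrArg norm h.ht
  rwa [norm_mul, norm_one, h.n2, one_mul] at h1

theorem nH (h : Cst p m s t H0) : ‖H0‖ = 1 := by
  rw [h.hH, norm_mul, norm_mul, norm_pow, norm_pow, norm_pow, h.n2, h.ns, h.nt]
  simp

theorem st (h : Cst p m s t H0) : 1 + s = t := by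
  have h2 := ne_zero_of_norm_one h.n2
  apply mul_left_cancel₀ h2
  linear_combination h.hs - h.ht

theorem xx0 (h : Cst p m s t H0) (c : ℚ_[p]) : xx (m + 1) c = s - c := by
  have h2 := ne_zero_of_norm_one h.n2
  unfold xx
  push_cast
  have : ((m : ℚ_[p]) + 1 + 1) = m + 2 := by ring
  rw [this]
  have h3 : -(((m : ℚ_[p]) + 1) / (m + 2)) = s := by
    rw [← neg_div, ← h.hs]
    field_simp
  rw [h3]

theorem der_HH (h : Cst p m s t H0) : Der (p := p) (HH (m + 1)) H0 (-(H0 * (m + 2) ^ 2)) := by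
  have hx : Der (p := p) (fun c => s - c) s (-1) :=
    ((Der.const h.ns.le).sub Der.ident).congr (by ring) (by ring)
  have hx1 : Der (p := p) (fun c => 1 + (s - c)) t (-1) :=
    ((Der.const (by simp : ‖(1 : ℚ_[p])‖ ≤ 1)).add hx).congr h.st (by ring)
  have hc : Der (p := p) (fun _ => ((m + 2 : ℚ_[p])) ^ (m + 2)) _ _ :=
    Der.const (by rw [norm_pow, h.n2, one_pow])
  have h1 := (hc.mul (hx.pow m)).mul (hx1.pow (m + 2))
  refine (h1.congr ?_ ?_).ext_fun (fun c _ => ?_)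
  · rw [h.hH]
  · rw [h.hH]
    have h3 := h.ht
    have h4 := h.hs
    push_cast
    -- both sides are multiples of `(m+2)^(m+2) s^m t^(m+2)`
    have e1 : (t : ℚ_[p]) ^ (m + 3) = t ^ (m + 2) * t := by ring
    have e2 : (s : ℚ_[p]) ^ (m + 1) = s ^ m * s := by ring
    rw [show m + 2 + 1 = m + 3 from rfl, e1, e2]
    linear_combination ((m : ℚ_[p]) + 2) ^ (m + 2) * s ^ m * t ^ (m + 2) *
      (((m + 2) * s + s) * h3 - t * h4)
  · unfold HH
    rw [h.xx0]
    push_cast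
    ring

end Cst

end

end Pool.Agent.K6.H14.PCF
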