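import Pool.Agent.K6.H14.PCF.Solve
import Pool.Agent.Y955.PF.PCom

/-!
# The maps of the family are postcritically finite with long critical orbits
-/

set_option autoImplicit false

namespace Pool.Agent.K6.H14.PCF

open Polynomial OnePoint Pool.Agent.Y955.PF

noncomputable section

theorem wronskian {K : Type} [Field K] (m : ℕ) (μ b z : K) :
    (derivative (C μ * X * (X - C b) ^ (m + 2) : K[X]) * (X - C 1) -
      C μ * X * (X - C b) ^ (m + 2) * derivative (X - C 1 : K[X])).eval z =
      μ * (z - b) ^ (m + 1) * ((m + 2) * z ^ 2 - (m + 3) * z + b) := by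
  have h1 : derivative ((X - C b) ^ (m + 2) : K[X]) = C ((m : K) + 2) * (X - C b) ^ (m + 1) := by
    rw [derivative_pow]
    simp
  simp only [derivative_mul, derivative_C, derivative_X, derivative_sub, h1,
    eval_sub, eval_mul, eval_add, eval_pow,
    eval_C, eval_X, zero_mul, zero_add, mul_one, sub_zero]
  ring

theorem orbit_finite_periodic {α : Type} (f : α → α) (z : α) (q : ℕ) (hq : 1 ≤ q)
    (h : f^[q] z = z) : (Set.range fun n : ℕ => f^[n] z).Finite := by
  refine ((Set.finite_Iio q).image (fun n => f^[n] z)).subset ?_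
  rintro _ ⟨n, rfl⟩
  refine ⟨n % q, Nat.mod_lt _ hq, ?_⟩
  exact Function.IsPeriodicPt.iterate_mod_apply h n

variable {p : ℕ} [Fact p.Prime]

theorem good {m J : ℕ} {μ c z e : ℚ_[p]} {y w : ℕ → ℚ_[p]} (h : DataC p m J μ c z e y w) :
    ∀ N ≤ J + 2, Good p (m + 3) N := by
  intro N hN
  obtain ⟨hμ, hc, hz0, he, hz, hee, hy0, hy, hyJ, hw0, hw1, hw, hwp⟩ := h
  have hp1 : 1 ≤ p - 1 := by
    have := (Fact.out : p.Prime).two_le
    omega
  set b : ℚ_[p] := 1 - e with hb
  set P : ℚ_[p][X] := C μ * X * (X - C b) ^ (m + 2) with hP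
  set Q : ℚ_[p][X] := X - C 1 with hQ
  have hQd : Q.natDegree = 1 := natDegree_X_sub_C 1
  have hPd : P.natDegree = m + 3 := by
    rw [hP, mul_assoc, natDegree_C_mul hμ, natDegree_mul X_ne_zero (pow_ne_zero _ (X_sub_C_ne_zero b)),
      natDegree_X, natDegree_pow, natDegree_X_sub_C]
    ring
  have hPe : ∀ x : ℚ_[p], P.eval x = μ * x * (x - b) ^ (m + 2) := fun x => by simp [hP]
  have hQe : ∀ x : ℚ_[p], Q.eval x = x - 1 := fun x => by simp [hQ]
  set f := ratMap (m + 3) P Q with hf
  set g : ℚ_[p] → ℚ_[p] := fun x => μ * x * (x - b) ^ (m + 2) / (x - 1) with hg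
  have hval : ∀ x : ℚ_[p], x ≠ 1 → f (x : OnePoint ℚ_[p]) = ((g x : ℚ_[p]) : OnePoint ℚ_[p]) := by
    intro x hx
    have h1 : Q.eval x ≠ 0 := by
      rw [hQe]
      exact sub_ne_zero.2 hx
    rw [hf, ratMap_coe _ P Q x h1, hPe, hQe]
  have hinf : f ∞ = ∞ := by
    rw [hf]
    unfold ratMap
    rw [OnePoint.elim_infty, if_pos]
    apply coeff_eq_zero_of_natDegree_lt
    rw [hQd]
    omega
  have hone : f ((1 : ℚ_[p]) : OnePoint ℚ_[p]) = ∞ := by
    rw [hf]
    apply ratMap_coe_pole
    rw [hQe, sub_self]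
  have hzero : f ((0 : ℚ_[p]) : OnePoint ℚ_[p]) = ((0 : ℚ_[p]) : OnePoint ℚ_[p]) := by
    rw [hval 0 zero_ne_one, hg]
    simp
  have hb1 : b ≠ 1 := by
    intro h
    apply he
    rw [hb] at h
    linear_combination -h
  have hbz : f ((b : ℚ_[p]) : OnePoint ℚ_[p]) = ((0 : ℚ_[p]) : OnePoint ℚ_[p]) := by
    rw [hval b hb1, hg]
    simp
  have o0 := orbit_finite_fixed f _ hzero
  have oinf := orbit_finite_fixed f _ hinf
  have o1 := orbit_finite_step f _ _ hone oinf
  have ob := orbit_finite_step f _ _ hbz o0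
  have hm2 : ((m : ℚ_[p]) + 2) ≠ 0 := by
    have : ((m + 2 : ℕ) : ℚ_[p]) ≠ 0 := by
      exact_mod_cast (by omega : m + 2 ≠ 0)
    push_cast at this
    exact this
  have eez : e = -((m + 2) * c * z) := by
    rw [hee]
    linear_combination c * hz
  -- the chain of the first critical point
  set x : ℕ → ℚ_[p] := fun k => Nat.casesOn k (1 + z) (fun i => 1 + y i) with hx
  have hx0 : x 0 = 1 + z := rfl
  have hxs : ∀ i, x (i + 1) = 1 + y i := fun i => rfl
  have hxT : x (J + 2) = 1 := by rw [hxs, hyJ, add_zero]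
  have hyne : ∀ i < J + 1, y i ≠ 0 := by
    intro i hi h0
    have h1 := hy i hi
    rw [h0, zero_mul, add_zero, mul_one, zero_add] at h1
    exact mul_ne_zero hμ (pow_ne_zero _ he) h1.symm
  have hstep : ∀ k < J + 2, x (k + 1) = g (x k) ∧ x k ≠ 1 := by
    intro k hk
    cases k with
    | zero =>
      refine ⟨?_, ?_⟩
      · rw [hxs, hx0, hy0, hg]
        simp only
        have e1 : 1 + z - b = (m + 2) * z * (1 + z) := by
          rw [hb, eez]
          linear_combination -z * hz
        have e2 : (1 : ℚ_[p]) + z - 1 = z := by ring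
        rw [e1, e2, mul_pow, mul_pow]
        field_simp
        ring
      · rw [hx0]
        intro h
        apply hz0
        linear_combination h
    | succ i =>
      have hi : i < J + 1 := by omega
      have hne := hyne i hi
      refine ⟨?_, ?_⟩
      · rw [hxs, hxs, hg]
        simp only
        have e1 : 1 + y i - b = y i + e := by
          rw [hb]
          ring
        have e2 : (1 : ℚ_[p]) + y i - 1 = y i := by ring
        rw [e1, e2, ← hy i hi]
        field_simp
      · rw [hxs]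
        intro h
        apply hne
        linear_combination h
  have hchain : ∀ k < J + 2, f ((x k : ℚ_[p]) : OnePoint ℚ_[p]) =
      ((x (k + 1) : ℚ_[p]) : OnePoint ℚ_[p]) := by
    intro k hk
    obtain ⟨h1, h2⟩ := hstep k hk
    rw [hval (x k) h2, h1]
  have oT : (Set.range fun n : ℕ => f^[n] ((x (J + 2) : ℚ_[p]) : OnePoint ℚ_[p])).Finite := by
    rw [hxT]
    exact o1
  have ox0 := orbit_finite_chain f (fun k => ((x k : ℚ_[p]) : OnePoint ℚ_[p])) (J + 2) hchain oT 0
    (Nat.zero_le _)
  -- the second critical point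
  have hwf : ∀ i, f ((w i : ℚ_[p]) : OnePoint ℚ_[p]) = ((w (i + 1) : ℚ_[p]) : OnePoint ℚ_[p]) := by
    intro i
    rw [hval (w i) (hw1 i), hg, hw i]
    simp only
    have e1 : w i - b = w i - 1 + e := by
      rw [hb]
      ring
    rw [e1, div_eq_mul_inv]
    congr 1
    ring
  have hwi : ∀ i, f^[i] ((w 0 : ℚ_[p]) : OnePoint ℚ_[p]) = ((w i : ℚ_[p]) : OnePoint ℚ_[p]) := by
    intro i
    induction i with
    | zero => rfl
    | succ i ih => rw [Function.iterate_succ_apply', ih, hwf]
  have ow : (Set.range fun n : ℕ => f^[n] ((w 0 : ℚ_[p]) : OnePoint ℚ_[p])).Finite :=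
    orbit_finite_periodic f _ (p - 1) hp1 (by rw [hwi, hwp])
  have hc1 : (1 : ℚ_[p]) + c ≠ 1 := by
    intro h
    apply hc
    linear_combination h
  have hcw : f (((1 + c : ℚ_[p])) : OnePoint ℚ_[p]) = ((w 0 : ℚ_[p]) : OnePoint ℚ_[p]) := by
    rw [hval _ hc1, hg, hw0]
    simp only
    have e1 : 1 + c - b = (m + 2) * c * (1 + c) := by
      rw [hb, eez]
      linear_combination -c * hz
    have e2 : (1 : ℚ_[p]) + c - 1 = c := by ring
    rw [e1, e2, mul_pow, mul_pow]
    congr 1
    field_simp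
    ring
  have oc := orbit_finite_step f _ _ hcw ow
  have hcop : IsCoprime P Q := by
    rw [hQ]
    apply IsCoprime.symm
    rw [(irreducible_X_sub_C (1 : ℚ_[p])).coprime_iff_not_dvd, dvd_iff_isRoot, IsRoot, hPe]
    refine mul_ne_zero (mul_ne_zero hμ one_ne_zero) (pow_ne_zero _ ?_)
    exact sub_ne_zero.2 hb1.symm
  refine ⟨P, Q, ⟨hcop, ?_⟩, ?_, 1 + z, ?_, fun k => ((x k : ℚ_[p]) : OnePoint ℚ_[p]), rfl, ?_, ?_⟩
  · rw [hPd, hQd]
    omega
  · -- PCF
    intro ζ hζ
    set ι := algebraMap ℚ_[p] (AlgebraicClosure ℚ_[p]) with hι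
    have tr : ∀ v : ℚ_[p], (Set.range fun n : ℕ => f^[n] ((v : ℚ_[p]) : OnePoint ℚ_[p])).Finite →
        (Set.range fun n : ℕ => (ratMap (m + 3) (P.map ι) (Q.map ι))^[n]
          ((ι v : AlgebraicClosure ℚ_[p]) : OnePoint (AlgebraicClosure ℚ_[p]))).Finite := by
      intro v hv
      have := orbit_finite_map ι (m + 3) P Q (v : OnePoint ℚ_[p]) hv
      rwa [OnePoint.map_some] at this
    cases ζ with
    | infty => exact orbit_finite_map ι (m + 3) P Q ∞ oinf
    | coe ζ =>
      have hζ' : (derivative (P.map ι) * (Q.map ι) - (P.map ι) * derivative (Q.map ι)).eval ζ = 0 := hζ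
      have e1 : P.map ι = C (ι μ) * X * (X - C (ι b)) ^ (m + 2) := by
        rw [hP]
        simp
      have e2 : Q.map ι = X - C 1 := by
        rw [hQ]
        simp
      rw [e1, e2, wronskian] at hζ'
      have hιμ : ι μ ≠ 0 := by
        rw [Ne, map_eq_zero]
        exact hμ
      have hιm : ((m : AlgebraicClosure ℚ_[p]) + 2) ≠ 0 := by
        have := (map_ne_zero ι).2 hm2
        rwa [map_add, map_natCast, map_ofNat] at this
      rcases mul_eq_zero.1 hζ' with h | h
      · rcases mul_eq_zero.1 h with h | h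
        · exact absurd h hιμ
        · have h1 : ζ = ι b := by
            by_contra hne
            exact pow_ne_zero _ (sub_ne_zero.2 hne) h
          rw [h1]
          exact tr _ ob
      · have h3 := congrArg ι hz
        have h4 := congrArg ι eez
        have h6 := congrArg ι hb
        simp only [map_mul, map_add, map_natCast, map_one, map_neg, map_ofNat, map_sub] at h3 h4 h6
        have h5 : ((m : AlgebraicClosure ℚ_[p]) + 2) * ((ζ - (1 + ι c)) * (ζ - (1 + ι z))) = 0 := by
          linear_combination h - (ζ - 1) * h3 + h4 - h6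
        rcases mul_eq_zero.1 ((mul_eq_zero.1 h5).resolve_left hιm) with h7 | h7
        · have h8 : ζ = ι (1 + c) := by
            rw [map_add, map_one]
            exact sub_eq_zero.1 h7
          rw [h8]
          exact tr _ oc
        · have h8 : ζ = ι (1 + z) := by
            rw [map_add, map_one]
            exact sub_eq_zero.1 h7
          rw [h8]
          exact tr _ ox0
  · rw [hP, hQ, wronskian]
    have : ((m : ℚ_[p]) + 2) * (1 + z) ^ 2 - (m + 3) * (1 + z) + b = 0 := by
      rw [hb, eez]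
      linear_combination z * hz
    rw [this, mul_zero]
  · intro k hk
    exact (hchain k (by omega)).symm
  · have h1 := injOn_orbit g x (J + 2) 1 (fun k hk => (hstep k hk).1) hxT
      (fun k hk => (hstep k hk).2)
    intro i hi j hj hij
    exact h1 (le_trans hi hN) (le_trans hj hN) (OnePoint.coe_injective hij)

theorem good_large {d : ℕ} (hd : 3 ≤ d) (hp : d < p) (N : ℕ) : Good p d N := by
  obtain ⟨m, rfl⟩ : ∃ m, d = m + 3 := ⟨d - 3, by omega⟩
  obtain ⟨μ, c, z, e, y, w, h⟩ := solve (p := p) hp N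
  exact good h N (by omega)

end

end Pool.Agent.K6.H14.PCF
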