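import Pool.Agent.K6.H14.PCF.Fam

/-!
# The multiplier product along the orbit of the small critical value
-/

set_option autoImplicit false

namespace Pool.Agent.K6.H14.PCF

open Filter Topology

noncomputable section

variable {p : ℕ} [Fact p.Prime]

/-- `f(w) / w` -/
def KK (n : ℕ) (M w : ℚ_[p] → ℚ_[p]) (c : ℚ_[p]) : ℚ_[p] :=
  M c * (w c - 1 + eps n c) ^ (n + 1) * (w c - 1)⁻¹

/-- the orbit of the small critical value -/
def ww (n : ℕ) (M : ℚ_[p] → ℚ_[p]) : ℕ → ℚ_[p] → ℚ_[p]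
  | 0 => fun c => M c * (n + 1) ^ (n + 1) * c ^ n * (1 + c) ^ (n + 2)
  | i + 1 => fun c => ww n M i c * KK n M (ww n M i) c

variable {m : ℕ} {s t H0 : ℚ_[p]} {M : ℚ_[p] → ℚ_[p]}

theorem Cst.nHi (h : Cst p m s t H0) : ‖H0⁻¹‖ = 1 := by rw [norm_inv, h.nH, inv_one]

theorem der_K (h : Cst p m s t H0) (hM : Der M H0⁻¹ ((m + 2) ^ 2 * H0⁻¹)) {w : ℚ_[p] → ℚ_[p]}
    {a : ℚ_[p]} (hw : Der w 0 a) :
    Der (KK (m + 1) M w) (-(H0⁻¹ * (-1) ^ m)) (-(H0⁻¹ * (-1) ^ m) * ((m + 2) - (m + 1) * a)) := by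
  have h1 : Der (p := p) (fun c => w c - 1) (-1) a :=
    (hw.sub (Der.const (by simp : ‖(1 : ℚ_[p])‖ ≤ 1))).congr (by ring) (by ring)
  have h2 := h1.add (der_eps (p := p) (m + 1))
  have h3 := h2.pow (m + 1)
  have h4 := h1.inv (by simp)
  have h5 := (hM.mul h3).mul h4
  have h0 := ne_zero_of_norm_one h.nH
  refine (h5.congr ?_ ?_).ext_fun (fun c _ => ?_)
  · rw [show (-1 : ℚ_[p])⁻¹ = -1 by norm_num]
    ring
  · rw [show (-1 : ℚ_[p])⁻¹ = -1 by norm_num]
    push_cast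
    ring
  · unfold KK
    rfl

theorem der_ww (h : Cst p m s t H0) (hM : Der M H0⁻¹ ((m + 2) ^ 2 * H0⁻¹)) (i : ℕ) :
    Der (ww (m + 1) M i) 0
      (H0⁻¹ * (m + 2) ^ (m + 2) * ((m + 1) * 0 ^ m) * (-(H0⁻¹ * (-1) ^ m)) ^ i) := by
  induction i with
  | zero =>
    have hc : Der (p := p) (fun _ => ((m + 2 : ℚ_[p])) ^ (m + 2)) _ _ :=
      Der.const (by rw [norm_pow, h.n2, one_pow])
    have h1 : Der (p := p) (fun c => 1 + c) 1 1 :=
      ((Der.const (by simp : ‖(1 : ℚ_[p])‖ ≤ 1)).add Der.ident).congr (by ring) (by ring)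
    have h2 := ((hM.mul hc).mul ((Der.ident (p := p)).pow m)).mul (h1.pow (m + 2))
    refine (h2.congr ?_ ?_).ext_fun (fun c _ => ?_)
    · ring
    · ring
    · show M c * (((m + 1 : ℕ) : ℚ_[p]) + 1) ^ (m + 1 + 1) * c ^ (m + 1) * (1 + c) ^ (m + 1 + 2) = _
      push_cast
      ring
  | succ i ih =>
    have h1 := ih.mul (der_K h hM ih)
    refine (h1.congr (by ring) (by ring)).ext_fun (fun c _ => rfl)

theorem A_eq_four {s t H0 : ℚ_[p]} (h : Cst p 0 s t H0) : -(H0⁻¹ * (-1) ^ 0) = 4 := by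
  have hs := h.hs
  have ht := h.ht
  have hH := h.hH
  have h0 := ne_zero_of_norm_one h.nH
  push_cast at hs ht hH
  have h2 : (2 : ℚ_[p]) ≠ 0 := by
    have := ne_zero_of_norm_one h.n2
    push_cast at this
    simpa using this
  have es : s = -(1 / 2) := by
    apply mul_left_cancel₀ h2
    field_simp
    linear_combination hs
  have et : t = 1 / 2 := by
    apply mul_left_cancel₀ h2
    field_simp
    linear_combination ht
  have eH : H0 = -(1 / 4) := by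
    rw [hH, es, et]
    norm_num
  rw [eH]
  norm_num

theorem nA (h : Cst p m s t H0) : ‖-(H0⁻¹ * (-1) ^ m)‖ = 1 := by
  rw [norm_neg, norm_mul, h.nHi, norm_pow, norm_neg, norm_one, one_pow, one_mul]

/-- the second order term does not matter -/
theorem sum_small (h : Cst p m s t H0) :
    ‖H0⁻¹ * (m + 2) ^ (m + 2) * ((m + 1) * 0 ^ m) *
      ∑ i ∈ Finset.range (p - 1), (-(H0⁻¹ * (-1) ^ m)) ^ i‖ ≤ (p : ℝ)⁻¹ := by
  rcases Nat.eq_zero_or_pos m with hm | hm
  · subst hm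
    have hp3 : 3 < p := by have := h.hp; omega
    refine mul_le_right ?_ ?_
    · rw [norm_mul, norm_mul, norm_mul, h.nHi, norm_pow, h.n2, h.n1]
      simp
    · have hA := A_eq_four h
      rw [hA]
      have h1 : (∑ i ∈ Finset.range (p - 1), (4 : ℚ_[p]) ^ i) * (4 - 1) = 4 ^ (p - 1) - 1 :=
        geom_sum_mul 4 (p - 1)
      have h3 : ‖(4 - 1 : ℚ_[p])‖ = 1 := by
        have := norm_nat_one (p := p) (n := 3) (by norm_num) hp3
        rw [← this]
        norm_num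
      have h4 : ‖(4 : ℚ_[p])‖ = 1 := by
        rw [← hA]
        exact nA h
      have h2 := congrArg norm h1
      rw [norm_mul, h3, mul_one] at h2
      rw [h2]
      exact fermat h4
  · rw [zero_pow hm.ne']
    simp [pinv_pos.le]

/-- The product of the factors along `p - 1` steps is `1` and has derivative `-(m+2)` modulo `p`. -/
theorem der_prod (h : Cst p m s t H0) (hM : Der M H0⁻¹ ((m + 2) ^ 2 * H0⁻¹)) :
    Der (fun c => ∏ i ∈ Finset.range (p - 1), KK (m + 1) M (ww (m + 1) M i) c) 1 (-(m + 2)) := by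
  have hp2 : 2 ≤ p := (Fact.out : p.Prime).two_le
  have h1 := Der.prod (p := p) (K := fun i => KK (m + 1) M (ww (m + 1) M i)) (p - 2)
    (fun i _ => der_K h hM (der_ww h hM i))
  rw [show p - 2 + 1 = p - 1 by omega] at h1
  refine h1.congr' (fermat (nA h)) ?_
  set A := -(H0⁻¹ * (-1) ^ m) with hA
  set a0 := H0⁻¹ * (m + 2) ^ (m + 2) * (((m : ℚ_[p]) + 1) * 0 ^ m) with ha0
  have e1 : A ^ (p - 2) * ∑ i ∈ Finset.range (p - 1), A * (((m : ℚ_[p]) + 2) - (m + 1) * (a0 * A ^ i)) =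
      A ^ (p - 1) * (((p : ℚ_[p]) - 1) * (m + 2)) -
        A ^ (p - 1) * (m + 1) * (a0 * ∑ i ∈ Finset.range (p - 1), A ^ i) := by
    rw [← Finset.mul_sum, Finset.sum_sub_distrib, Finset.sum_const, Finset.card_range, nsmul_eq_mul,
      ← Finset.mul_sum, ← Finset.mul_sum, Nat.cast_sub (by omega), Nat.cast_one,
      show p - 1 = p - 2 + 1 by omega]
    ring
  rw [e1]
  have e2 : A ^ (p - 1) * (((p : ℚ_[p]) - 1) * (m + 2)) -
        A ^ (p - 1) * (m + 1) * (a0 * ∑ i ∈ Finset.range (p - 1), A ^ i) - -((m : ℚ_[p]) + 2) =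
      ((A ^ (p - 1) - 1) * (((p : ℚ_[p]) - 1) * (m + 2)) + p * (m + 2)) -
        A ^ (p - 1) * (m + 1) * (a0 * ∑ i ∈ Finset.range (p - 1), A ^ i) := by ring
  rw [e2]
  have hpn : ‖((p : ℚ_[p]) - 1)‖ ≤ 1 := sub_le' (nat_le_one p) (by simp)
  refine sub_le' (add_le ?_ ?_) ?_
  · exact mul_le_left (fermat (nA h)) (mul_le_left hpn h.n2.le)
  · exact mul_le_left (le_of_eq (Padic.norm_p)) h.n2.le
  · refine mul_le_right (mul_le_left ?_ h.n1.le) (sum_small h)
    rw [norm_pow, nA h, one_pow]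

end

end Pool.Agent.K6.H14.PCF
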