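import Pool.Agent.K6.H14.PCF.Chain

/-!
# Solution of all equations of the family
-/

set_option autoImplicit false

namespace Pool.Agent.K6.H14.PCF

open Filter Topology

noncomputable section

variable {p : ℕ} [Fact p.Prime]

/-- The data of a postcritically finite map `f(w) = μ w (w - 1 + e)^(m+2) / (w - 1)` of degree
`m + 3`: the simple critical points are `1 + c` and `1 + z`. The critical value at `1 + c` is the
periodic point `w 0`, and the critical value at `1 + z` is `1 + y 0`, whose orbit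
`1 + y 0, 1 + y 1, ...` ends at the pole `1 + y (J+1) = 1`. -/
structure DataC (p : ℕ) [Fact p.Prime] (m J : ℕ) (μ c z e : ℚ_[p]) (y w : ℕ → ℚ_[p]) : Prop where
  hμ : μ ≠ 0
  hc : c ≠ 0
  hz0 : z ≠ 0
  he : e ≠ 0
  hz : (m + 2) * (z + c) = -(m + 1)
  hee : e = c * ((m + 2) * c + (m + 1))
  hy0 : 1 + y 0 = μ * ((m + 2) ^ (m + 2) * z ^ (m + 1) * (1 + z) ^ (m + 3))
  hy : ∀ i < J + 1, y i * (1 + y (i + 1)) = μ * (1 + y i) * (y i + e) ^ (m + 2)
  hyJ : y (J + 1) = 0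
  hw0 : w 0 = μ * (m + 2) ^ (m + 2) * c ^ (m + 1) * (1 + c) ^ (m + 3)
  hw1 : ∀ i, w i ≠ 1
  hw : ∀ i, w (i + 1) = w i * (μ * (w i - 1 + e) ^ (m + 2) * (w i - 1)⁻¹)
  hwp : w (p - 1) = w 0

variable {m : ℕ} {s t H0 : ℚ_[p]}

theorem ww_prod (n : ℕ) (M : ℚ_[p] → ℚ_[p]) (c : ℚ_[p]) (k : ℕ) :
    ww n M k c = ww n M 0 c * ∏ i ∈ Finset.range k, KK n M (ww n M i) c := by
  induction k with
  | zero => simp
  | succ k ih =>
    rw [Finset.prod_range_succ, ← mul_assoc, ← ih]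
    rfl

theorem HH_zero (h : Cst p m s t H0) : HH (m + 1) (0 : ℚ_[p]) = H0 := by
  unfold HH
  rw [h.xx0, sub_zero, h.st, h.hH]
  push_cast
  ring

theorem A_eq (h : Cst p m s t H0) :
    -(H0⁻¹ * (-1) ^ m) * ((m : ℚ_[p]) + 1) ^ (m + 1) = (m + 2) ^ (m + 2) := by
  have h0 := ne_zero_of_norm_one h.nH
  have e1 : H0 * ((m : ℚ_[p]) + 2) ^ (m + 2) = (((m : ℚ_[p]) + 2) * s) ^ (m + 1) *
      (((m : ℚ_[p]) + 2) * t) ^ (m + 3) := by
    rw [h.hH, mul_pow, mul_pow]
    ring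
  rw [h.hs, h.ht, one_pow, mul_one] at e1
  have e2 : (-(1 : ℚ_[p])) ^ m * (-1) ^ m = 1 := by
    rw [← mul_pow]
    norm_num
  apply mul_left_cancel₀ h0
  rw [e1]
  have e3 : (-((m : ℚ_[p]) + 1)) ^ (m + 1) = -((-1) ^ m * (m + 1) ^ (m + 1)) := by
    rw [neg_pow, pow_succ (-1 : ℚ_[p]) m]
    ring
  rw [e3]
  field_simp

theorem A_pow_ne (h : Cst p m s t H0) : (-(H0⁻¹ * (-1) ^ m)) ^ (p - 1) ≠ 1 := by
  intro h1
  have h2 := congrArg (fun x => x ^ (p - 1)) (A_eq h)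
  simp only [mul_pow] at h2
  rw [h1, one_mul] at h2
  have h3 : (((m + 1) ^ (m + 1)) ^ (p - 1) : ℕ) = ((m + 2) ^ (m + 2)) ^ (p - 1) := by
    have : ((((m + 1) ^ (m + 1)) ^ (p - 1) : ℕ) : ℚ_[p]) = ((((m + 2) ^ (m + 2)) ^ (p - 1) : ℕ) : ℚ_[p]) := by
      push_cast
      exact h2
    exact_mod_cast this
  have h4 : (m + 1) ^ (m + 1) < (m + 2) ^ (m + 2) :=
    calc (m + 1) ^ (m + 1) < (m + 2) ^ (m + 1) := Nat.pow_lt_pow_left (by omega) (by omega)
      _ ≤ (m + 2) ^ (m + 2) := Nat.pow_le_pow_right (by omega) (by omega)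
  have h5 := Nat.pow_lt_pow_left h4 (n := p - 1) (by
    have := (Fact.out : p.Prime).two_le
    omega)
  omega

theorem solve (hp : m + 3 < p) (J : ℕ) : ∃ (μ c z e : ℚ_[p]) (y w : ℕ → ℚ_[p]),
    DataC p m J μ c z e y w := by
  obtain ⟨s, t, H0, h⟩ := exists_cst (p := p) hp
  obtain ⟨Y, hY, hYl⟩ := exists_chain h J
  have hm2 := ne_zero_of_norm_one h.n2
  set M : ℚ_[p] → ℚ_[p] := fun c => (1 + Y c 0) * (HH (m + 1) c)⁻¹ with hMdef
  have hY0 : Der (p := p) (fun c => 1 + Y c 0) 1 0 := by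
    refine ⟨by simp, by simp, fun c hc => ?_, fun c c' hc hc' => ?_⟩
    · rw [add_sub_cancel_left]
      exact (norm_le_pi_norm (Y c) 0).trans (hY c hc).1
    · have : 1 + Y c 0 - (1 + Y c' 0) - 0 * (c - c') = (Y c - Y c') 0 := by
        rw [Pi.sub_apply]
        ring
      rw [this]
      exact (norm_le_pi_norm (Y c - Y c') 0).trans (hYl c c' hc hc')
  have h0 := ne_zero_of_norm_one h.nH
  have hM : Der M H0⁻¹ ((m + 2) ^ 2 * H0⁻¹) := by
    refine (hY0.mul (h.der_HH.inv h.nH)).congr (by ring) ?_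
    field_simp
    ring
  have hPr := der_prod h hM
  have hT : Der (p := p) (fun c => c +
      (∏ i ∈ Finset.range (p - 1), KK (m + 1) M (ww (m + 1) M i) c - 1) * ((m : ℚ_[p]) + 2)⁻¹) 0 0 := by
    refine (Der.ident.add ((hPr.sub (Der.const (by simp : ‖(1 : ℚ_[p])‖ ≤ 1))).mul
      (Der.const (f := ((m : ℚ_[p]) + 2)⁻¹) (by rw [norm_inv, h.n2, inv_one])))).congr (by ring) ?_
    field_simp
    ring
  obtain ⟨c, hc, hfix⟩ := exists_fixed (p := p) (E := ℚ_[p]) (p : ℝ)⁻¹ pinv_pos.le _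
    (fun c hc => by simpa using hT.val c hc)
    (fun c c' hc hc' => by
      have := hT.der c c' hc hc'
      rwa [zero_mul, sub_zero] at this)
  have hprod : ∏ i ∈ Finset.range (p - 1), KK (m + 1) M (ww (m + 1) M i) c = 1 := by
    have h1 : (∏ i ∈ Finset.range (p - 1), KK (m + 1) M (ww (m + 1) M i) c - 1) *
        ((m : ℚ_[p]) + 2)⁻¹ = 0 := by
      linear_combination hfix
    rcases mul_eq_zero.1 h1 with h2 | h2
    · linear_combination h2
    · exact absurd h2 (inv_ne_zero hm2)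
  obtain ⟨hYc, hYf⟩ := hY c hc
  have hy0n : ‖Y c 0‖ ≤ (p : ℝ)⁻¹ := (norm_le_pi_norm (Y c) 0).trans hYc
  have hHn : ‖HH (m + 1) c‖ = 1 := h.der_HH.nF_eq h.nH hc
  have hHne := ne_zero_of_norm_one hHn
  have hMn : ‖M c‖ = 1 := hM.nF_eq h.nHi hc
  have hwn : ∀ i, ‖ww (m + 1) M i c‖ ≤ (p : ℝ)⁻¹ := fun i => by
    have := (der_ww h hM i).val c hc
    rwa [sub_zero] at this
  -- `c ≠ 0`
  have hc0 : c ≠ 0 := by
    intro hc0
    subst hc0
    have he0 : eps (m + 1) (0 : ℚ_[p]) = 0 := by unfold eps; ring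
    have hy00 : Y 0 0 = 0 := by
      by_contra hne
      have h1 := congrFun hYf 0
      unfold TT tau at h1
      rw [he0, add_zero] at h1
      have h2 := congrArg norm h1
      have hnx := norm_one_add (nxt_le hYc 0)
      rw [norm_mul, norm_mul, norm_mul, norm_mul, norm_inv, norm_inv, norm_one_add hy0n, hHn, hnx,
        norm_pow] at h2
      simp only [inv_one, one_mul, mul_one] at h2
      have h3 : ‖Y 0 0‖ < 1 := lt_of_le_of_lt hy0n pinv_lt_one
      have h4 : 0 < ‖Y 0 0‖ := norm_pos_iff.2 hne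
      have h5 : ‖Y 0 0‖ ^ (m + 2) < ‖Y 0 0‖ := by
        calc ‖Y 0 0‖ ^ (m + 2) < ‖Y 0 0‖ ^ 1 := pow_lt_pow_right_of_lt_one₀ h4 h3 (by omega)
          _ = _ := pow_one _
      linarith
    have hM0 : M 0 = H0⁻¹ := by
      rw [hMdef]
      simp only
      rw [hy00, HH_zero h, add_zero, one_mul]
    have hw : ∀ i, ww (m + 1) M i 0 = 0 := by
      intro i
      rw [ww_prod]
      have : ww (m + 1) M 0 0 = 0 := by
        unfold ww
        simp
      rw [this, zero_mul]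
    have hK : ∀ i, KK (m + 1) M (ww (m + 1) M i) 0 = -(H0⁻¹ * (-1) ^ m) := by
      intro i
      unfold KK
      rw [hw, he0, hM0, zero_sub, add_zero]
      rw [show (-1 : ℚ_[p])⁻¹ = -1 by norm_num]
      ring
    rw [Finset.prod_congr rfl (fun i _ => hK i), Finset.prod_const, Finset.card_range] at hprod
    exact A_pow_ne h hprod
  have hzn : ‖s - c‖ = 1 := norm_eq_one_of_near h.ns (by
    have : s - c - s = -c := by ring
    rw [this, norm_neg]
    exact hc)
  have hen : ‖((m : ℚ_[p]) + 2) * c + (m + 1)‖ = 1 := norm_eq_one_of_near h.n1 (by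
    have : ((m : ℚ_[p]) + 2) * c + (m + 1) - (m + 1) = (m + 2) * c := by ring
    rw [this]
    exact mul_le_right h.n2.le hc)
  have hee : eps (m + 1) c = c * (((m : ℚ_[p]) + 2) * c + (m + 1)) := by
    unfold eps
    push_cast
    ring
  refine ⟨M c, c, s - c, eps (m + 1) c, fun i => if hi : i < J + 1 then Y c ⟨i, hi⟩ else 0,
    fun i => ww (m + 1) M i c, ?_⟩
  constructor
  · exact ne_zero_of_norm_one hMn
  · exact hc0
  · exact ne_zero_of_norm_one hzn
  · rw [hee]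
    exact mul_ne_zero hc0 (ne_zero_of_norm_one hen)
  · linear_combination h.hs
  · exact hee
  · have h1 : M c * HH (m + 1) c = 1 + Y c 0 := by
      rw [hMdef]
      simp only
      field_simp
    have h2 : HH (m + 1) c = ((m : ℚ_[p]) + 2) ^ (m + 2) * (s - c) ^ (m + 1) * (1 + (s - c)) ^ (m + 3) := by
      unfold HH
      rw [h.xx0]
      push_cast
      ring
    rw [← h2, h1]
    simp
  · intro i hi
    have h1 := congrFun hYf ⟨i, hi⟩
    have hnx := norm_one_add (nxt_le hYc ⟨i, hi⟩)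
    have hnx0 := ne_zero_of_norm_one hnx
    have h2 : (if hi' : i + 1 < J + 1 then Y c ⟨i + 1, hi'⟩ else 0) = nxt (Y c) ⟨i, hi⟩ := rfl
    simp only [dif_pos hi]
    rw [h2]
    unfold TT tau at h1
    have h3 : M c = (1 + Y c 0) * (HH (m + 1) c)⁻¹ := rfl
    rw [← h3] at h1
    rw [← h1]
    rw [h1]
    field_simp at h1
    linear_combination -h1
  · simp
  · show ww (m + 1) M 0 c = _
    unfold ww
    push_cast
    ring
  · intro i h1
    have h2 := hwn i
    rw [h1, norm_one] at h2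
    have := pinv_lt_one (p := p)
    linarith
  · intro i
    rfl
  · show ww (m + 1) M (p - 1) c = ww (m + 1) M 0 c
    rw [ww_prod, hprod, mul_one]

end

end Pool.Agent.K6.H14.PCF
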